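import Mathlib

set_option autoImplicit false

namespace Pool.Agent.H.MP_369bda_lc

open Filter

/-- Game graphs with edges coloured by `A`; `eve` is the set of vertices of Eve. -/
structure Game (A : Type) where
  V : Type
  E : Type
  src : E → V
  tgt : E → V
  col : E → A
  eve : V → Prop
  out : ∀ v, ∃ e, src e = v

/-- The strategy `s` (history, current vertex ↦ outgoing edge) wins from `v`. -/
def Game.Wins {A : Type} (G : Game A) (W : Set (Stream' A)) (s : List G.E → G.V → G.E)
    (v : G.V) : Prop :=
  (∀ h u, G.src (s h u) = u) ∧ ∀ e : Stream' G.E, G.src (e.get 0) = v →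
    (∀ n, G.tgt (e.get n) = G.src (e.get (n + 1))) →
    (∀ n, G.eve (G.src (e.get n)) → e.get n = s (e.take n) (G.src (e.get n))) → e.map G.col ∈ W

/-- With memory update `μ` from `m₀` on colours, one choice function `σ` wins from every vertex
from which Eve can win. -/
def Game.Suf {A M : Type} (G : Game A) (W : Set (Stream' A)) (m₀ : M) (μ : M → A → M) : Prop :=
  ∃ σ : G.V → M → G.E,
    ∀ v, (∃ s, G.Wins W s v) → G.Wins W (fun h u => σ u ((h.map G.col).foldl μ m₀)) v

/-- In each game of the class `C`, one chromatic strategy with `k` states wins from every vertex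
from which Eve can win. -/
def Mem {A : Type} (W : Set (Stream' A)) (k : ℕ) (C : Game A → Prop) : Prop :=
  ∀ G, C G → ∃ (m₀ : Fin k) (μ : Fin k → A → Fin k), G.Suf W m₀ μ

/-- Recognised by a finite deterministic parity automaton. -/
def OReg {A : Type} (W : Set (Stream' A)) : Prop :=
  ∃ (Q : Type) (_ : Finite Q) (q₀ : Q) (δ : Q → A → Q) (pr : Q → ℕ), ∀ w, w ∈ W ↔
    ∃ d, Even d ∧ (∃ᶠ n in atTop, pr ((w.take n).foldl δ q₀) = d) ∧
      ∀ᶠ n in atTop, pr ((w.take n).foldl δ q₀) ≤ d

end Pool.Agent.H.MP_369bda_lc
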