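import Mathlib

set_option autoImplicit false

namespace Pool.Agent.H.MP_369bda_lc

open Set

variable {M : Type} [Monoid M] [Finite M]

lemma idem (a : M) : ∃ n, 0 < n ∧ a ^ n * a ^ n = a ^ n := by
  have k : ∃ i j, i < j ∧ a ^ i = a ^ j := by
    obtain ⟨i, j, n, e⟩ := Finite.exists_ne_map_eq_of_infinite fun n : ℕ => a ^ n
    rcases n.lt_or_gt with n | n
    exacts [⟨i, j, n, e⟩, ⟨j, i, n, e.symm⟩]
  obtain ⟨i, j, l, e⟩ := k
  obtain ⟨p, rfl⟩ := Nat.exists_eq_add_of_lt l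
  have h (k : ℕ) : a ^ (i + k * (p + 1)) = a ^ i := by
    induction k with
    | zero => simp
    | succ k ih => rw [show i + (k + 1) * (p + 1) = (i + p + 1) + k * (p + 1) by ring, pow_add, ← e,
        ← pow_add, ih]
  refine ⟨(i + 1) * (p + 1), by positivity, ?_⟩
  rw [← pow_add, show (i + 1) * (p + 1) + (i + 1) * (p + 1) = (i + (i + 1) * (p + 1)) + (i * p + p + 1)
    by ring, pow_add, h, ← pow_add]
  congr 1; ring

lemma rmin {Z : Set M} (h : Z.Nonempty) : ∃ m ∈ Z, ∀ r, m * r ∈ Z → ∃ c, m * r * c = m := by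
  obtain ⟨m, a, b⟩ := exists_min_image Z (fun m => (range (m * ·)).ncard) (toFinite Z) h
  refine ⟨m, a, fun r k => ?_⟩
  have : range (m * r * ·) = range (m * ·) :=
    eq_of_subset_of_ncard_le (by rintro _ ⟨c, rfl⟩; exact ⟨r * c, (mul_assoc _ _ _).symm⟩) (b _ k)
  exact (this.ge ⟨1, mul_one m⟩ : m ∈ range (m * r * ·))

inductive Alt (Z : Bool → Set M) : Bool → M → Bool → Prop
  | one (b : Bool) : Alt Z b 1 b
  | cons {b c : Bool} {x m : M} : x ∈ Z b → Alt Z (!b) m c → Alt Z b (x * m) c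

omit [Finite M] in
lemma Alt.mul {Z : Bool → Set M} {a b c : Bool} {m n : M} (h : Alt Z a m b) (k : Alt Z b n c) :
    Alt Z a (m * n) c := by
  induction h with
  | one => rwa [one_mul]
  | cons x _ i => rw [mul_assoc]; exact .cons x (i k)

theorem alt {L : Set M} (l1 : ∀ a ∈ L, ∀ b ∈ L, a * b ∈ L) (l2 : ∀ a b, a * b ∈ L → b * a ∈ L)
    (l3 : ∀ a n, 0 < n → (a ^ n ∈ L ↔ a ∈ L)) (Z : Bool → Set M) (ne : ∀ b, (Z b).Nonempty)
    (gen : Submonoid.closure (Z false ∪ Z true) = ⊤)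
    (inv : ∀ b, ∀ x ∈ Z b, ∃ w ∈ Submonoid.closure (Z b), w * x ∈ L) :
    ∃ m ∈ L, Alt Z false m false := by
  by_contra H
  push Not at H
  obtain ⟨t, t1, t2⟩ := rmin (Z := {m | Alt Z false m false}) ⟨1, .one _⟩
  obtain ⟨m, ⟨⟨c, m1⟩, b, rfl⟩, m2⟩ := rmin (Z := {m | (∃ c, m * c ∉ L) ∧ ∃ b, t * b = m})
    ⟨t, ⟨1, fun h => H _ h (by rwa [mul_one])⟩, 1, mul_one t⟩
  obtain ⟨n, n0, en⟩ := idem (t * b * c)
  obtain ⟨n, rfl⟩ := Nat.exists_eq_add_one_of_ne_zero n0.ne'
  have eL := mt (l3 _ _ n0).1 m1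
  obtain ⟨c', ec⟩ : ∃ c', (t * b * c) ^ (n + 1) = t * b * c' :=
    ⟨c * (t * b * c) ^ n, by rw [pow_succ', mul_assoc]⟩
  generalize (t * b * c) ^ (n + 1) = e at en eL ec
  have E2 (u : M) (h : ∃ c, e * u * c ∉ L) : ∃ c, e * u * c = e := by
    obtain ⟨d, k⟩ := m2 (c' * u) ⟨by rwa [← mul_assoc, ← ec], b * (c' * u), (mul_assoc _ _ _).symm⟩
    exact ⟨d * c', by rw [← mul_assoc, ec, mul_assoc (t * b), k]⟩
  let R (s : M) : Set M := {r | ∃ c, e * (s * r) * c ∉ L}
  have sq (s r c : M) (h : r ∉ R s) : r * c * e * s ∈ L := by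
    have : ∀ c, e * (s * r) * c ∈ L := by simpa [R] using h
    refine (l3 _ 2 two_pos).1 ?_
    have := l2 (e * (s * r) * (c * e * s)) (r * c) (by
      simpa only [mul_assoc] using this (c * e * s * (r * c)))
    simpa only [sq, mul_assoc] using this
  have gain (s w : M) (h : w ∈ L) : R (s * w) ⊆ R s := fun r a => by
    by_contra k
    obtain ⟨c, i⟩ := E2 _ a
    have := l2 (r * c) (e * s * w) (by simpa only [mul_assoc] using l1 _ (sq s r c k) _ h)
    exact eL (by rw [← i]; simpa only [mul_assoc] using this)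
  have tot (s s' : M) : R s ⊆ R s' ∨ R s' ⊆ R s := by
    by_contra k
    simp only [not_or, not_subset] at k
    obtain ⟨⟨r, a, a'⟩, r', d, d'⟩ := k
    obtain ⟨c, i⟩ := E2 _ a
    obtain ⟨c', i'⟩ := E2 _ d
    have := l1 _ (sq s r' c' d') _ (sq s' r c a')
    rw [show r' * c' * e * s * (r * c * e * s') = r' * c' * (e * (s * r) * c * e * s') by
      simp only [mul_assoc], i, en] at this
    exact eL (by rw [← i']; simpa only [mul_assoc] using l2 _ _ this)
  have mono (s s' u : M) (h : R s ⊆ R s') : R (s * u) ⊆ R (s' * u) := fun r a => by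
    have := h (a := u * r) (by simpa only [R, mem_ofPred_eq, mul_assoc] using a)
    simpa only [R, mem_ofPred_eq, mul_assoc] using this
  let Λ (b : Bool) : Set M := {s | ∀ m c, Alt Z b m c → m ∈ R s}
  have st (b : Bool) (s x : M) (h : s ∈ Λ b) (k : x ∈ Z b) : s * x ∈ Λ (!b) := fun m c a => by
    simpa only [R, mem_ofPred_eq, mul_assoc] using h _ c (.cons k a)
  have tΛ : t ∈ Λ false := fun m d a => by
    obtain ⟨y, i⟩ : ∃ y, Alt Z false (m * y) false := by
      cases d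
      · exact ⟨1, by rwa [mul_one]⟩
      · obtain ⟨y, k⟩ := ne true
        exact ⟨y * 1, a.mul (.cons k (.one _))⟩
    obtain ⟨d, k⟩ := t2 _ (Alt.mul t1 i)
    refine ⟨y * d * (b * c'), ?_⟩
    rw [show e * (t * m) * (y * d * (b * c')) = e * (t * (m * y) * d * b * c') by
      simp only [mul_assoc], k, ← ec, en]
    exact eL
  obtain ⟨s, s1, s2⟩ := exists_min_image (Λ false ∪ Λ true) (fun s => (R s).ncard) (toFinite _)
    ⟨t, .inl tΛ⟩
  have mn (u : M) (b : Bool) (h : u ∈ Λ b) : R s ⊆ R u := (tot s u).elim id fun k =>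
    (eq_of_subset_of_ncard_le k (s2 u (by cases b; exacts [.inl h, .inr h]))).ge
  have up (Y : Set M) (h : ∀ x ∈ Y, R s ⊆ R (s * x)) (u : M) (k : u ∈ Submonoid.closure Y) :
      R s ⊆ R (s * u) := by
    induction k using Submonoid.closure_induction with
    | mem x a => exact h x a
    | one => rw [mul_one]
    | mul x y _ _ i j => rw [← mul_assoc]; exact j.trans (mono _ _ y i)
  have sw (b : Bool) (h : s ∈ Λ b) : s ∈ Λ (!b) := by
    obtain ⟨x, k⟩ := ne b
    obtain ⟨w, i, j⟩ := inv b x k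
    have := (mono _ _ x (up _ (fun y a => mn _ _ (st b s y h a)) w i)).trans
      (mul_assoc s w x ▸ gain s _ j)
    exact fun m c a => this (st b s x h k m c a)
  have both (b : Bool) : s ∈ Λ b := by
    rcases s1 with h | h <;> cases b
    exacts [h, sw _ h, sw _ h, h]
  have all (u : M) : R s ⊆ R (s * u) := up (Z false ∪ Z true) (fun x a => a.elim
    (fun a => mn _ _ (st _ s x (both _) a)) fun a => mn _ _ (st _ s x (both _) a)) u (gen ▸ trivial)
  have iv (u : M) : ∃ v, u * v ∈ L ∨ u * v = 1 := by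
    have : u ∈ Submonoid.closure (Z false ∪ Z true) := gen ▸ trivial
    induction this using Submonoid.closure_induction with
    | mem x a =>
      obtain ⟨w, k⟩ : ∃ w, w * x ∈ L :=
        a.elim (fun a => (inv _ x a).imp fun _ h => h.2) fun a => (inv _ x a).imp fun _ h => h.2
      exact ⟨w, .inl (l2 _ _ k)⟩
    | one => exact ⟨1, .inr (mul_one 1)⟩
    | mul x y _ _ i j =>
      obtain ⟨v, i⟩ := i
      obtain ⟨w, j⟩ := j
      refine ⟨w * v, ?_⟩
      rw [show x * y * (w * v) = x * (y * w * v) by simp only [mul_assoc]]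
      rcases j with j | j
      · rcases i with i | i
        · exact .inl (l2 _ _ (by simpa only [mul_assoc] using l1 _ j _ (l2 _ _ i)))
        · have vx : v * x = 1 := mul_eq_one_comm.1 i
          exact .inl (l2 _ _ (by rwa [mul_assoc, vx, mul_one]))
      · rwa [j, one_mul]
  obtain ⟨x, hx⟩ := ne false
  obtain ⟨w, -, wx⟩ := inv _ x hx
  obtain ⟨v, k⟩ : ∃ v, e * s * v ∈ L := by
    obtain ⟨v, k | k⟩ := iv (e * s)
    · exact ⟨v, k⟩
    · exact ⟨v * (w * x), by rwa [← mul_assoc, k, one_mul]⟩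
  have z : e * s * v * e ∈ L := by
    have := l2 e (e * s * v) (by rwa [← mul_assoc, ← mul_assoc, en])
    exact this
  obtain ⟨n, n0, i⟩ := idem (e * s * v * e)
  obtain ⟨n, rfl⟩ := Nat.exists_eq_add_one_of_ne_zero n0.ne'
  obtain ⟨c, j⟩ := E2 _ (all (v * e * (e * s * v * e) ^ n) (both false 1 false (.one _)))
  rw [show e * (s * (v * e * (e * s * v * e) ^ n) * 1) = (e * s * v * e) ^ (n + 1) by
    rw [pow_succ']; simp only [mul_assoc, mul_one]] at j
  have : (e * s * v * e) ^ (n + 1) * e = (e * s * v * e) ^ (n + 1) := by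
    rw [pow_succ, mul_assoc, mul_assoc (e * s * v), en]
  refine eL ?_
  rw [← j, ← i, mul_assoc, j, this]
  exact (l3 _ _ n0).2 z

end Pool.Agent.H.MP_369bda_lc
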