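import Pool.Agent.H.MP_369bda_lc.A

set_option autoImplicit false

namespace Pool.Agent.H.MP_369bda_lc

open Set Filter Stream'

variable {A Q : Type}

lemma om_uniq {x : List A} (h : x ≠ []) {w z : Stream' A} (a : w = x ++ₛ w) (b : z = x ++ₛ z) :
    w = z := by
  ext n
  induction n using Nat.strong_induction_on with
  | _ n ih =>
    rcases lt_or_ge n x.length with l | l
    · rw [a, b, get_append_left _ _ _ l, get_append_left _ _ _ l]
    · obtain ⟨n, rfl⟩ := Nat.exists_eq_add_of_le l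
      rw [a, b, get_append_right, get_append_right]
      exact ih n (by have := List.length_pos_iff.2 h; omega)

lemma om_ex {x : List A} (h : x ≠ []) : ∃ w, w = x ++ₛ w := ⟨_, cycle_eq x h⟩

def pw (x : List A) : ℕ → List A
  | 0 => []
  | n + 1 => x ++ pw x n

lemma om_pw {x : List A} {w : Stream' A} (a : w = x ++ₛ w) (n : ℕ) : w = pw x n ++ₛ w := by
  induction n with
  | zero => rfl
  | succ n ih => rw [pw, append_append_stream, ← ih, ← a]

lemma pw_add (x : List A) (m n : ℕ) : pw x (m + n) = pw x m ++ pw x n := by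
  induction m with
  | zero => simp [pw]
  | succ m ih => rw [Nat.succ_add, pw, pw, ih, List.append_assoc]

lemma pw_ne {x : List A} {n : ℕ} (h : 0 < n) : pw x n ≠ [] ↔ x ≠ [] := by
  obtain ⟨n, rfl⟩ := Nat.exists_eq_add_one_of_ne_zero h.ne'
  refine ⟨fun a b => a ?_, fun a b => a (List.append_eq_nil_iff.1 b).1⟩
  subst b
  induction n + 1 with
  | zero => rfl
  | succ n ih => exact ih

variable (δ : Q → A → Q) (pr : Q → ℕ)

def Acc (q : Q) (w : Stream' A) : Prop :=
  ∃ d, Even d ∧ (∃ᶠ n in atTop, pr ((w.take n).foldl δ q) = d) ∧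
    ∀ᶠ n in atTop, pr ((w.take n).foldl δ q) ≤ d

lemma acc_app (q : Q) (u : List A) (w : Stream' A) :
    Acc δ pr q (u ++ₛ w) ↔ Acc δ pr (u.foldl δ q) w := by
  have e (n : ℕ) : ((u ++ₛ w).take (n + u.length)).foldl δ q = (w.take n).foldl δ (u.foldl δ q) := by
    rw [add_comm, ← append_take, List.foldl_append]
  refine exists_congr fun d => and_congr_right fun _ => ?_
  conv_lhs => rw [← map_add_atTop_eq_nat u.length, frequently_map, eventually_map]
  simp only [e]

def vis : Q → List A → Set Q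
  | _, [] => ∅
  | q, List.cons a x => insert q (vis (δ q a) x)

lemma vis_app (q : Q) (x y : List A) : vis δ q (x ++ y) = vis δ q x ∪ vis δ (x.foldl δ q) y := by
  induction x generalizing q with
  | nil => simp [vis]
  | cons a x ih => simp [vis, ih, insert_union]

lemma mem_vis {q p : Q} {w : Stream' A} {n : ℕ} :
    p ∈ vis δ q (w.take n) ↔ ∃ i < n, (w.take i).foldl δ q = p := by
  induction n with
  | zero => simp [vis]
  | succ n ih =>
    rw [take_succ', vis_app, mem_union, ih, Nat.exists_lt_succ_right]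
    simp [vis, eq_comm]

def Ev (S : Set Q) : Prop := ∃ p ∈ S, Even (pr p) ∧ ∀ q ∈ S, pr q ≤ pr p

lemma lasso {q : Q} {x : List A} {w : Stream' A} (c : x.foldl δ q = q) (h : x ≠ [])
    (a : w = x ++ₛ w) : Acc δ pr q w ↔ Ev pr (vis δ q x) := by
  have l := List.length_pos_iff.2 h
  have e (n : ℕ) : (w.take (x.length + n)).foldl δ q = (w.take n).foldl δ q := by
    conv_lhs => rw [a, ← append_take, List.foldl_append, c]
  have tx : w.take x.length = x := by
    have := append_take 0 x w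
    rw [← a] at this
    simpa using this.symm
  have m (n : ℕ) : (w.take n).foldl δ q ∈ vis δ q x := by
    induction n using Nat.strong_induction_on with
    | _ n ih =>
      rcases lt_or_ge n x.length with k | k
      · rw [← tx, mem_vis]; exact ⟨n, k, rfl⟩
      · obtain ⟨n, rfl⟩ := Nat.exists_eq_add_of_le k
        rw [e]; exact ih n (by omega)
  have f (p : Q) (k : p ∈ vis δ q x) : ∃ᶠ n in atTop, (w.take n).foldl δ q = p := by
    rw [← tx, mem_vis] at k
    obtain ⟨i, -, rfl⟩ := k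
    refine frequently_atTop.2 fun n => ?_
    induction n with
    | zero => exact ⟨i, Nat.zero_le i, rfl⟩
    | succ n ih =>
      obtain ⟨j, b, d⟩ := ih
      exact ⟨x.length + j, by omega, (e j).trans d⟩
  constructor
  · rintro ⟨d, i, j, k⟩
    obtain ⟨n, rfl⟩ := j.exists
    refine ⟨_, m n, i, fun p b => ?_⟩
    obtain ⟨n, rfl, d⟩ := ((f p b).and_eventually k).exists
    exact d
  · rintro ⟨p, b, i, j⟩
    exact ⟨_, i, (f p b).mono fun n e => e ▸ rfl, .of_forall fun n => j _ (m n)⟩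

def Ls (q : Q) (x : List A) : Prop := x ≠ [] ∧ ∃ w, w = x ++ₛ w ∧ ¬ Acc δ pr q w

variable {δ pr}

lemma Ls.iff {q : Q} {x : List A} {w : Stream' A} (h : x ≠ []) (a : w = x ++ₛ w) :
    Ls δ pr q x ↔ ¬ Acc δ pr q w :=
  ⟨fun ⟨_, _, b, c⟩ => om_uniq h a b ▸ c, fun c => ⟨h, w, a, c⟩⟩

lemma Ls.pow {q : Q} {x : List A} {n : ℕ} (h : 0 < n) : Ls δ pr q (pw x n) ↔ Ls δ pr q x := by
  by_cases e : x = []
  · exact iff_of_false (fun a => (pw_ne h).1 a.1 e) fun a => a.1 e
  · obtain ⟨w, a⟩ := om_ex e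
    rw [Ls.iff e a, Ls.iff ((pw_ne h).2 e) (om_pw a n)]

lemma Ls.conj {q : Q} {x y : List A} (h : Ls δ pr q (x ++ y)) :
    Ls δ pr (x.foldl δ q) (y ++ x) := by
  obtain ⟨n, w, a, b⟩ := h
  rw [append_append_stream] at a
  refine ⟨by simpa [and_comm] using n, y ++ₛ w, ?_, by rwa [← acc_app, ← a]⟩
  rw [append_append_stream, ← a]

variable (δ) in
def ph (x : List A) : (Function.End (Q × Set Q))ᵐᵒᵖ :=
  .op fun s => (x.foldl δ s.1, s.2 ∪ vis δ s.1 x)

lemma ph_app (x y : List A) : ph δ (x ++ y) = ph δ x * ph δ y :=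
  MulOpposite.unop_injective <| funext fun s => by
    simp [ph, Function.End.mul_def, vis_app, union_assoc]

lemma ph_nil : ph δ [] = 1 :=
  MulOpposite.unop_injective <| funext fun s => by simp [ph, Function.End.one_def, vis]

lemma ph_pw (x : List A) (n : ℕ) : ph δ (pw x n) = ph δ x ^ n := by
  induction n with
  | zero => exact ph_nil
  | succ n ih => rw [pw, ph_app, ih, pow_succ']

lemma ph_eq {x y : List A} (h : ph δ x = ph δ y) (q : Q) :
    x.foldl δ q = y.foldl δ q ∧ vis δ q x = vis δ q y := by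
  have : (x.foldl δ q, ∅ ∪ vis δ q x) = (y.foldl δ q, ∅ ∪ vis δ q y) :=
    congrFun (congrArg MulOpposite.unop h) (q, ∅)
  simpa using this

lemma Ls.inv [Finite Q] {q : Q} {x y : List A} (h : ph δ x = ph δ y) (a : Ls δ pr q x) :
    Ls δ pr q y := by
  have e (n : ℕ) := ph_eq (x := pw x n)
    (y := pw y n) (by rw [ph_pw, ph_pw, h])
  obtain ⟨n, w, b, c⟩ := a
  have m : y ≠ [] := by
    rintro rfl
    obtain ⟨a, x, rfl⟩ := List.exists_cons_of_ne_nil n
    exact (insert_nonempty _ _).ne_empty (ph_eq h q).2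
  obtain ⟨z, d⟩ := om_ex m
  refine ⟨m, z, d, fun k => c ?_⟩
  have : ∃ i j, i < j ∧ (pw x i).foldl δ q =
      (pw x j).foldl δ q := by
    obtain ⟨i, j, n, e⟩ := Finite.exists_ne_map_eq_of_infinite
      fun n => (pw x n).foldl δ q
    rcases n.lt_or_gt with n | n
    exacts [⟨i, j, n, e⟩, ⟨j, i, n, e.symm⟩]
  obtain ⟨i, j, l, f⟩ := this
  obtain ⟨j, rfl⟩ := Nat.exists_eq_add_of_lt l
  rw [add_assoc, pw_add, List.foldl_append] at f
  rw [om_pw b i, acc_app, lasso δ pr f.symm ((pw_ne j.succ_pos).2 n) (om_pw b _), (e _ _).2]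
  rwa [om_pw d i, acc_app, ← (e i q).1, lasso δ pr ((e _ _).1 ▸ f.symm)
    ((pw_ne j.succ_pos).2 m) (om_pw d _)] at k

end Pool.Agent.H.MP_369bda_lc
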