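import Pool.Agent.H.MP_369bda_lc.C

set_option autoImplicit false

namespace Pool.Agent.H.MP_369bda_lc

open Set Filter Stream'

variable {A : Type}

lemma wins_of_play (G : Game A) (h : ∀ v, G.eve v) {W : Set (Stream' A)} (e : Stream' G.E)
    (p : ∀ n, G.tgt (e.get n) = G.src (e.get (n + 1))) (w : e.map G.col ∈ W) :
    ∃ s, G.Wins W s (G.src (e.get 0)) := by
  classical
  choose o ho using G.out
  refine ⟨fun l u => if G.src (e.get l.length) = u then e.get l.length else o u, fun l u => ?_,
    fun f a b c => ?_⟩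
  · beta_reduce
    split_ifs with k
    exacts [k, ho u]
  · have k (n : ℕ) (i : G.src (e.get n) = G.src (f.get n)) : f.get n = e.get n := by
      have := c n (h _)
      simp only [length_take] at this
      rwa [if_pos i] at this
    have (n : ℕ) : f.get n = e.get n := by
      induction n with
      | zero => exact k 0 a.symm
      | succ n ih => exact k _ (by rw [← p, ← b, ih])
    rwa [show f = e from Stream'.ext this]

abbrev Op (A : Type) := A × (List A ⊕ Stream' A)
abbrev Vx (A : Type) := (List A × (Bool → Op A)) ⊕ Stream' A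

def nx : Vx A → Bool → A × Vx A
  | .inl (List.cons a l, o), _ => (a, .inl (l, o))
  | .inl ([], o), b => ((o b).1, (o b).2.map (·, o) id)
  | .inr w, _ => (w.head, .inr w.tail)

def GG (A : Type) : Game A where
  V := Vx A
  E := Vx A × Bool
  src := Prod.fst
  tgt e := (nx e.1 e.2).2
  col e := (nx e.1 e.2).1
  eve _ := True
  out v := ⟨(v, true), rfl⟩

section

variable {T : Type} (bo : Vx A → T → Bool) (up : Vx A → T → T)

def stp (s : Vx A × T) : Vx A × T := ((nx s.1 (bo s.1 s.2)).2, up s.1 s.2)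

def pl (s : Vx A × T) : Stream' (GG A).E := fun n =>
  (((stp bo up)^[n] s).1, bo ((stp bo up)^[n] s).1 ((stp bo up)^[n] s).2)

lemma pl_play (s : Vx A × T) (n : ℕ) :
    (GG A).tgt ((pl bo up s).get n) = (GG A).src ((pl bo up s).get (n + 1)) := by
  simp only [pl, Stream'.get, Function.iterate_succ_apply']
  rfl

def C (s : Vx A × T) : Stream' A := (pl bo up s).map (GG A).col

lemma C_eq (s : Vx A × T) : C bo up s = [(nx s.1 (bo s.1 s.2)).1] ++ₛ C bo up (stp bo up s) := by
  ext n
  cases n <;> rfl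

lemma C_inr (w : Stream' A) (t : T) : C bo up (.inr w, t) = w := by
  ext n
  induction n generalizing w t with
  | zero => rfl
  | succ n ih => exact ih w.tail _

lemma C_inl (f : T → A → T) (h : ∀ a l o t, up (.inl (List.cons a l, o)) t = f t a) (l : List A)
    (o : Bool → Op A) (t : T) :
    C bo up (.inl (l, o), t) = l ++ₛ C bo up (.inl ([], o), l.foldl f t) := by
  induction l generalizing t with
  | nil => rfl
  | cons a l ih =>
    rw [C_eq, List.foldl_cons, ← h a l o t]
    exact congrArg (Stream'.cons a) (ih _)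

end

def tg : Vx A → Bool → Bool
  | .inl ([], _), t => !t
  | _, t => t

def opx : Op A → Stream' A → Stream' A
  | (a, .inl l), z => List.cons a l ++ₛ z
  | (a, .inr w), _ => [a] ++ₛ w

lemma fc {T : Type} (t : T) (l : List A) : l.foldl (fun t _ => t) t = t := by
  induction l <;> simp_all

lemma tog (o : Bool → Op A) : ∃ z : Bool → Stream' A, (∀ b, z b = opx (o b) (z !b)) ∧
    ∀ (W : Set (Stream' A)) u b, u ++ₛ z b ∈ W → ∃ s, (GG A).Wins W s (.inl (u, o)) := by
  have k (u : List A) (b : Bool) := C_inl (fun _ t => t) tg (fun t _ => t) (fun _ _ _ _ => rfl) u o b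
  simp only [fc] at k
  refine ⟨fun b => C (fun _ t => t) tg (.inl ([], o), b), fun b => ?_, fun W u b h => ?_⟩
  · beta_reduce
    rw [C_eq]
    rcases e : o b with ⟨a, l | w⟩
    · simp only [stp, nx, e, Sum.map_inl, tg, k l]; rfl
    · simp only [stp, nx, e, Sum.map_inr, id, C_inr]; rfl
  · exact wins_of_play (GG A) (fun _ => trivial) (pl (fun _ t => t) tg (.inl (u, o), b))
      (pl_play _ _ _) (by rw [← k] at h; exact h)

structure Loc (W : Set (Stream' A)) {M : Type} (m₀ : M) (μ : M → A → M) : Prop where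
  p1 : ∀ u u' w w', u.foldl μ m₀ = u'.foldl μ m₀ → u ++ₛ w ∈ W → u' ++ₛ w' ∈ W →
    u ++ₛ w' ∈ W ∨ u' ++ₛ w ∈ W
  p2 : ∀ u x w z, x.foldl μ (u.foldl μ m₀) = u.foldl μ m₀ → x ≠ [] → z = x ++ₛ z →
    u ++ₛ (x ++ₛ w) ∈ W → u ++ₛ z ∈ W ∨ u ++ₛ w ∈ W
  p3 : ∀ u x y z z' w, x.foldl μ (u.foldl μ m₀) = u.foldl μ m₀ →
    y.foldl μ (u.foldl μ m₀) = u.foldl μ m₀ → x ≠ [] → y ≠ [] → z = x ++ₛ z → z' = y ++ₛ z' →
    w = (x ++ y) ++ₛ w → u ++ₛ w ∈ W → u ++ₛ z ∈ W ∨ u ++ₛ z' ∈ W

theorem loc {W : Set (Stream' A)} {M : Type} {m₀ : M} {μ : M → A → M} (h : (GG A).Suf W m₀ μ) :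
    Loc W m₀ μ := by
  obtain ⟨σ, h⟩ := h
  let bo (v : Vx A) (m : M) : Bool := (σ v m).2
  let up (v : Vx A) (m : M) : M := μ m (nx v (bo v m)).1
  have kl := C_inl bo up μ (fun _ _ _ _ => rfl)
  have key (u : List A) (o : Bool → Op A) (a : ∃ s, (GG A).Wins W s (.inl (u, o))) :
      u ++ₛ C bo up (.inl ([], o), u.foldl μ m₀) ∈ W := by
    obtain ⟨i, j⟩ := h _ a
    rw [← kl]
    have m (n : ℕ) : (((pl bo up (.inl (u, o), m₀)).take n).map (GG A).col).foldl μ m₀ =
        ((stp bo up)^[n] (.inl (u, o), m₀)).2 := by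
      induction n with
      | zero => rfl
      | succ n ih =>
        rw [take_succ', List.map_append, List.foldl_append, ih, Function.iterate_succ_apply']
        rfl
    refine j (pl bo up (.inl (u, o), m₀)) rfl (pl_play _ _ _) fun n _ => ?_
    have := i ((pl bo up (.inl (u, o), m₀)).take n) ((stp bo up)^[n] (.inl (u, o), m₀)).1
    simp only [m] at this ⊢
    exact Prod.ext this.symm rfl
  have ce (o : Bool → Op A) (m : M) (z : Bool → Stream' A)
      (hz : ∀ b, z b = opx (o b) (z b) ∧ ∀ l, (o b).2 = .inl l → l.foldl μ (μ m (o b).1) = m) :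
      ∃ b, C bo up (.inl ([], o), m) = z b := by
    refine ⟨bo (.inl ([], o)) m, ?_⟩
    obtain ⟨i, j⟩ := hz (bo (.inl ([], o)) m)
    have := C_eq bo up (.inl ([], o), m)
    rcases e : o (bo (.inl ([], o)) m) with ⟨a, l | w⟩
    · have s : stp bo up (.inl ([], o), m) = (.inl (l, o), μ m a) := by simp [stp, nx, up, e]
      simp only [s, kl l, nx, e] at this i j
      rw [j l rfl] at this
      exact om_uniq (List.cons_ne_nil a l) this i
    · simp only [stp, nx, e, Sum.map_inr, id, C_inr] at this i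
      exact this.trans i.symm
  have hs (w : Stream' A) : w = opx (w.head, .inr w.tail) w := (append_stream_head_tail w).symm
  refine ⟨fun u u' w w' e a b => ?_, fun u x w z e n c a => ?_,
    fun u x y z z' w e e' n n' c c' d a => ?_⟩
  · let o (b : Bool) : Op A := ((cond b w w').head, .inr (cond b w w').tail)
    obtain ⟨z, i, j⟩ := tog o
    have i (b : Bool) : z b = cond b w w' := (i b).trans (hs _).symm
    have a' := key u o (j W u true (by rwa [i]))
    have b' := key u' o (j W u' false (by rwa [i]))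
    obtain ⟨c, f⟩ := ce o (u.foldl μ m₀) (fun b => cond b w w') fun b => ⟨hs _, by simp [o]⟩
    rw [← e, f] at b'
    rw [f] at a'
    cases c
    exacts [.inl a', .inr b']
  · obtain ⟨x₀, x, rfl⟩ := List.exists_cons_of_ne_nil n
    let o (b : Bool) : Op A := cond b (x₀, .inl x) (w.head, .inr w.tail)
    obtain ⟨y, i, j⟩ := tog o
    have a' := key u o (j W u true (by
      rwa [i true, Bool.not_true, (i false).trans (hs w).symm]))
    obtain ⟨b, f⟩ := ce o (u.foldl μ m₀) (fun b => cond b z w) fun b => by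
      cases b
      · exact ⟨hs _, by simp [o]⟩
      · exact ⟨c, by simpa [o] using e⟩
    rw [f] at a'
    cases b
    exacts [.inr a', .inl a']
  · obtain ⟨x₀, x, rfl⟩ := List.exists_cons_of_ne_nil n
    obtain ⟨y₀, y, rfl⟩ := List.exists_cons_of_ne_nil n'
    let o (b : Bool) : Op A := cond b (x₀, .inl x) (y₀, .inl y)
    obtain ⟨t, i, j⟩ := tog o
    have : t true = w := om_uniq (by simp) (by
      rw [append_append_stream]
      exact (i true).trans (congrArg _ (i false))) d
    have a' := key u o (j W u true (by rwa [this]))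
    obtain ⟨b, f⟩ := ce o (u.foldl μ m₀) (fun b => cond b z z') fun b => by
      cases b
      · exact ⟨c', by simpa [o] using e'⟩
      · exact ⟨c, by simpa [o] using e⟩
    rw [f] at a'
    cases b
    exacts [.inr a', .inl a']

end Pool.Agent.H.MP_369bda_lc
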