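import Pool.Agent.H.MP_369bda_lc.B
import Pool.Agent.H.MP_369bda_lc.D

set_option autoImplicit false

namespace Pool.Agent.H.MP_369bda_lc

open Set Filter

variable {A Q M : Type} {U : Type 1}

inductive Cl (X : Set (List A)) : List A → Prop
  | nil : Cl X []
  | cons {x y : List A} : x ∈ X → Cl X y → Cl X (x ++ y)

lemma Cl.app {X : Set (List A)} {x y : List A} (a : Cl X x) (b : Cl X y) : Cl X (x ++ y) := by
  induction a with
  | nil => exact b
  | cons m _ i => rw [List.append_assoc]; exact .cons m i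

lemma Cl.one {X : Set (List A)} {x : List A} (a : x ∈ X) : Cl X x := by
  simpa using Cl.cons a .nil

lemma Cl.mono {X Y : Set (List A)} (h : X ⊆ Y) {x : List A} (a : Cl X x) : Cl Y x := by
  induction a with
  | nil => exact .nil
  | cons m _ i => exact .cons (h m) i

lemma Cl.last {X : Set (List A)} {x : List A} (a : Cl X x) (n : x ≠ []) :
    ∃ y, ∃ z ∈ X, Cl X y ∧ x = y ++ z := by
  induction a with
  | nil => exact (n rfl).elim
  | @cons x y m _ i =>
    by_cases e : y = []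
    · exact ⟨[], x, m, .nil, by simp [e]⟩
    · obtain ⟨y, z, a, b, rfl⟩ := i e
      exact ⟨_, z, a, .cons m b, (List.append_assoc _ _ _).symm⟩

inductive Path (Ed : U → A → U → Prop) (O : Set (U × U)) : U → List A → U → Prop
  | nil (z : U) : Path Ed O z [] z
  | ed {z y t : U} {a : A} {u : List A} : Ed z a y → Path Ed O y u t → Path Ed O z (a :: u) t
  | ep {z y t : U} {u : List A} : (z, y) ∈ O → Path Ed O y u t → Path Ed O z u t

variable {Ed : U → A → U → Prop} {O : Set (U × U)}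

lemma Path.trans {x y z : U} {u v : List A} (a : Path Ed O x u y) (b : Path Ed O y v z) :
    Path Ed O x (u ++ v) z := by
  induction a with
  | nil => exact b
  | ed e _ i => exact .ed e (i b)
  | ep e _ i => exact .ep e (i b)

lemma Path.mono {P : Set (U × U)} (h : O ⊆ P) {x y : U} {u : List A} (a : Path Ed O x u y) :
    Path Ed P x u y := by
  induction a with
  | nil => exact .nil _
  | ed e _ i => exact .ed e i
  | ep e _ i => exact .ep (h e) i

lemma Path.dec {p p' x y : U} {u : List A} (a : Path Ed (insert (p, p') O) x u y) :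
    Path Ed O x u y ∨ ∃ u₁ v u₂, Path Ed O x u₁ p ∧ Cl {v | Path Ed O p' v p} v ∧
      Path Ed O p' u₂ y ∧ u = u₁ ++ (v ++ u₂) := by
  induction a with
  | nil => exact .inl (.nil _)
  | ed e _ i =>
    exact i.imp (.ed e) fun ⟨u₁, v, u₂, a, b, c, d⟩ => ⟨_, v, u₂, .ed e a, b, c, by rw [d]; rfl⟩
  | ep e _ i =>
    rcases e with e | e
    · obtain ⟨rfl, rfl⟩ := Prod.ext_iff.1 e
      rcases i with i | ⟨u₁, v, u₂, a, b, c, d⟩
      · exact .inr ⟨[], [], _, .nil _, .nil, i, rfl⟩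
      · exact .inr ⟨[], u₁ ++ v, u₂, .nil _, .cons a b, c, by simp [d]⟩
    · exact i.imp (.ep e) fun ⟨u₁, v, u₂, a, b, c, d⟩ => ⟨_, v, u₂, .ep e a, b, c, d⟩

variable {δ : Q → A → Q} {pr : Q → ℕ} {q₀ : Q} {Rt : U → Prop}

variable (δ pr) in
def LE (q q' : Q) : Prop := ∀ w, Acc δ pr q w → Acc δ pr q' w

lemma LE.app {q q' : Q} (h : LE δ pr q q') (x : List A) : LE δ pr (x.foldl δ q) (x.foldl δ q') :=
  fun w a => (acc_app δ pr _ _ _).1 (h _ ((acc_app δ pr _ _ _).2 a))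

lemma LE.trans {p q r : Q} (h : LE δ pr p q) (k : LE δ pr q r) : LE δ pr p r :=
  fun w a => k w (h w a)

lemma Ls.anti {q q' : Q} {x : List A} (a : Ls δ pr q' x) (h : LE δ pr q q') : Ls δ pr q x :=
  let ⟨n, w, b, c⟩ := a; ⟨n, w, b, fun k => c (h w k)⟩

lemma Cl.le {X : Set (List A)} {p : Q} (h : ∀ x ∈ X, LE δ pr p (x.foldl δ p)) {x : List A}
    (a : Cl X x) {q : Q} (k : LE δ pr p q) : LE δ pr p (x.foldl δ q) := by
  induction a generalizing q with
  | nil => exact k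
  | cons m _ i => rw [List.foldl_append]; exact i ((h _ m).trans (k.app _))

variable (Ed δ pr q₀ Rt) in
def Sat (O : Set (U × U)) : Prop :=
  ∀ r u z x, Rt r → Path Ed O r u z → Path Ed O z x z → ¬ Ls δ pr (u.foldl δ q₀) x

variable (Ed O Rt) in
def Rc (p : U) : Set (List A) := {u | ∃ r, Rt r ∧ Path Ed O r u p}

lemma unre (S : Sat Ed δ pr q₀ Rt O) {p p' : U} (h : ¬ Sat Ed δ pr q₀ Rt (insert (p, p') O)) :
    (Rc Ed O Rt p).Nonempty := by
  by_contra k
  refine h fun r u z x a b c => ?_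
  rcases b.dec with b | ⟨u, -, -, b, -⟩
  · rcases c.dec with c | ⟨v, -, -, c, -⟩
    · exact S r u z x a b c
    · exact (k ⟨_, r, a, b.trans c⟩).elim
  · exact (k ⟨_, r, a, b⟩).elim

lemma half (S : Sat Ed δ pr q₀ Rt O) {p p' : U} (h : ¬ Sat Ed δ pr q₀ Rt (insert (p, p') O))
    {u₀ : List A} (h₀ : u₀ ∈ Rc Ed O Rt p')
    (mn : ∀ u ∈ Rc Ed O Rt p, LE δ pr (u₀.foldl δ q₀) (u.foldl δ q₀)) :
    ∃ x, Cl {v | Path Ed O p' v p} x ∧ Ls δ pr (u₀.foldl δ q₀) x := by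
  obtain ⟨r₀, a₀, b₀⟩ := h₀
  simp only [Sat, not_forall, not_not] at h
  obtain ⟨r, u, z, x, a, b, c, d⟩ := h
  obtain ⟨u', ⟨r', a', b'⟩, l⟩ : ∃ u' ∈ Rc Ed O Rt z, LE δ pr (u'.foldl δ q₀) (u.foldl δ q₀) := by
    rcases b.dec with b | ⟨u₁, v, u₂, i, j, k, rfl⟩
    · exact ⟨u, ⟨r, a, b⟩, fun _ => id⟩
    · refine ⟨u₀ ++ u₂, ⟨r₀, a₀, b₀.trans k⟩, ?_⟩
      simp only [List.foldl_append]
      exact (j.le (fun x m => List.foldl_append ▸ mn _ ⟨r₀, a₀, b₀.trans m⟩) (mn _ ⟨r, a, i⟩)).app _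
  rcases c.dec with c | ⟨u₁, v, u₂, i, j, k, rfl⟩
  · exact (S r' u' z x a' b' c (d.anti l)).elim
  · refine ⟨v ++ (u₂ ++ u₁), j.app (.one (k.trans i)), ?_⟩
    rw [← List.append_assoc]
    exact (d.anti l).conj.anti (List.foldl_append ▸ mn _ ⟨r', a', b'.trans i⟩)

variable {μ : M → A → M} {m₀ : M} {me : U → M}

lemma Path.mem (e : ∀ z a y, Ed z a y → me y = μ (me z) a) (o : ∀ z ∈ O, me z.1 = me z.2)
    {x y : U} {u : List A} (a : Path Ed O x u y) : u.foldl μ (me x) = me y := by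
  induction a with
  | nil => rfl
  | ed k _ i => rw [List.foldl_cons, ← e _ _ _ k, i]
  | ep k _ i => exact (congrArg (List.foldl μ · _) (o _ k)).trans i

lemma Cl.mem {X : Set (List A)} {m : M} (h : ∀ x ∈ X, x.foldl μ m = m) {x : List A} (a : Cl X x) :
    x.foldl μ m = m := by
  induction a with
  | nil => rfl
  | cons k _ i => rw [List.foldl_append, h _ k, i]

theorem merge [Finite Q] (lo : Loc {w | Acc δ pr q₀ w} m₀ μ)
    (e : ∀ z a y, Ed z a y → me y = μ (me z) a) (rt : ∀ r, Rt r → me r = m₀)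
    (o : ∀ z ∈ O, me z.1 = me z.2) (S : Sat Ed δ pr q₀ Rt O) {p p' : U} (pp : me p = me p') :
    Sat Ed δ pr q₀ Rt (insert (p, p') O) ∨ Sat Ed δ pr q₀ Rt (insert (p', p) O) := by
  by_contra H
  let nd (b : Bool) : U := cond b p p'
  have H (b : Bool) : ¬ Sat Ed δ pr q₀ Rt (insert (nd !b, nd b) O) := by
    cases b
    exacts [fun k => H (.inl k), fun k => H (.inr k)]
  have nm (b : Bool) : me (nd b) = me p := by cases b; exacts [pp.symm, rfl]
  let R (b : Bool) := Rc Ed O Rt (nd b)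
  let X (b : Bool) : Set (List A) := {v | Path Ed O (nd b) v (nd !b)}
  have rm (b : Bool) (u : List A) (h : u ∈ R b) : u.foldl μ m₀ = me p := by
    obtain ⟨r, a, c⟩ := h
    rw [← rt r a, c.mem e o, nm]
  have xm (b : Bool) (u : List A) (h : u ∈ X b) : u.foldl μ (me p) = me p := by
    have := Path.mem e o h
    rwa [nm, nm] at this
  have rx (b : Bool) (u x : List A) (h : u ∈ R b) (k : x ∈ X b) : u ++ x ∈ R !b :=
    let ⟨r, a, c⟩ := h; ⟨r, a, c.trans k⟩
  have tot (u v : List A) (h : u.foldl μ m₀ = v.foldl μ m₀) :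
      LE δ pr (u.foldl δ q₀) (v.foldl δ q₀) ∨ LE δ pr (v.foldl δ q₀) (u.foldl δ q₀) := by
    by_contra k
    simp only [LE, not_or, not_forall, ← acc_app] at k
    obtain ⟨⟨w, a, b⟩, z, c, d⟩ := k
    exact (lo.p1 u v w z h a c).elim d b
  obtain ⟨u, uR, um⟩ : ∃ u, (∃ b, u ∈ R b) ∧ ∀ b, ∀ v ∈ R b,
      LE δ pr (u.foldl δ q₀) (v.foldl δ q₀) := by
    let f (u : List A) := {q | LE δ pr q (u.foldl δ q₀)}
    have n : {u | ∃ b, u ∈ R b}.Nonempty := (unre S (H true)).mono fun u h => ⟨false, h⟩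
    obtain ⟨c, i⟩ := Function.argminOn_mem (fun u => (f u).ncard) _ n
    refine ⟨_, ⟨c, i⟩, fun b v h => (tot _ v ((rm c _ i).trans (rm b v h).symm)).elim id fun k => ?_⟩
    exact (eq_of_subset_of_ncard_le (s := f v) (fun q a => LE.trans a k) (Function.argminOn_le
      (fun u => (f u).ncard) {u | ∃ b, u ∈ R b} ⟨b, h⟩)).ge (fun _ => id)
  generalize hq : u.foldl δ q₀ = q at um
  have st (b : Bool) (v : List A) (h : v ∈ R b) (k : LE δ pr (v.foldl δ q₀) q) :
      (∀ x ∈ X b, LE δ pr q (x.foldl δ q)) ∧ (∃ x, Cl (X b) x ∧ Ls δ pr q x) ∧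
        ∃ v ∈ R !b, LE δ pr (v.foldl δ q₀) q := by
    have i (x : List A) (m : x ∈ X b) : LE δ pr q (x.foldl δ q) :=
      (um _ _ (rx b v x h m)).trans (List.foldl_append ▸ k.app x)
    obtain ⟨x, c, d⟩ := half S (H b) h fun w a => k.trans (um _ w a)
    refine ⟨i, ⟨x, c, d.anti (um b v h)⟩, ?_⟩
    obtain ⟨y, z, m, j, rfl⟩ := c.last d.1
    refine ⟨_, rx b v z h m, LE.trans ?_ k⟩
    obtain ⟨n, w, f, g⟩ := d
    rw [List.foldl_append]
    refine ((j.le (fun x m => k.trans ((i x m).trans ((um b v h).app x))) fun _ => id).app z).trans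
      fun t a => ?_
    rw [← List.foldl_append, ← acc_app, ← acc_app] at a
    rw [← acc_app] at g ⊢
    exact (lo.p2 v _ t w (by rw [rm b v h]; exact c.mem (xm b)) n f a).resolve_left g
  have al (b : Bool) : ∃ v ∈ R b, LE δ pr (v.foldl δ q₀) q := by
    obtain ⟨c, h⟩ := uR
    have := (st c u h (hq ▸ fun _ => id)).2.2
    cases b <;> cases c
    exacts [⟨u, h, hq ▸ fun _ => id⟩, this, this, ⟨u, h, hq ▸ fun _ => id⟩]
  have st (b : Bool) := (al b).elim fun v h => st b v h.1 h.2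
  let Y (b : Bool) : Set (List A) := {x ∈ X b | ∃ w, Cl (X b) w ∧ Ls δ pr q (w ++ x)}
  have cj (x y : List A) (h : Cl (X false ∪ X true) x) (k : Ls δ pr q (x ++ y)) :
      Ls δ pr q (y ++ x) :=
    k.conj.anti (h.le (fun x m => m.elim ((st _).1 x) ((st _).1 x)) fun _ => id)
  have xs (b : Bool) : X b ⊆ X false ∪ X true := by
    cases b
    exacts [subset_union_left, subset_union_right]
  have cy (b : Bool) (w : List A) (h : Cl (X b) w) (v : List A) (k : Cl (X b) v)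
      (l : Ls δ pr q (w ++ v)) : Cl (Y b) w := by
    induction h generalizing v with
    | nil => exact .nil
    | @cons x w m h i =>
      have := cj x (w ++ v) (.one (xs b m)) (List.append_assoc _ _ _ ▸ l)
      exact .cons ⟨m, _, h.app k, this⟩ (i _ (k.app (.one m)) (List.append_assoc _ _ _ ▸ this))
  have yx : Y false ∪ Y true ⊆ X false ∪ X true :=
    union_subset_union (fun _ h => h.1) fun _ h => h.1
  let N := Submonoid.closure (ph δ '' (Y false ∪ Y true))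
  have rep (m : N) : ∃ s, Cl (Y false ∪ Y true) s ∧ ph δ s = m := by
    obtain ⟨m, h⟩ := m
    induction h using Submonoid.closure_induction with
    | mem x a => obtain ⟨s, a, rfl⟩ := a; exact ⟨s, .one a, rfl⟩
    | one => exact ⟨[], .nil, ph_nil⟩
    | mul x y _ _ i j =>
      obtain ⟨s, a, b⟩ := i
      obtain ⟨t, c, d⟩ := j
      exact ⟨s ++ t, a.app c, by rw [ph_app, b, d]⟩
  have : Finite (Function.End (Q × Set Q)) := inferInstanceAs (Finite (Q × Set Q → Q × Set Q))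
  have : Finite (Function.End (Q × Set Q))ᵐᵒᵖ := .of_equiv _ MulOpposite.opEquiv
  let L : Set N := {m | ∃ s, ph δ s = m ∧ Ls δ pr q s}
  have li (m : N) (s : List A) (h : ph δ s = m) : m ∈ L ↔ Ls δ pr q s :=
    ⟨fun ⟨t, a, b⟩ => b.inv (a.trans h.symm), fun a => ⟨s, h, a⟩⟩
  have um' : u.foldl μ m₀ = me p := uR.elim fun b h => rm b u h
  refine (alt (L := L) (fun a i b j => ?_) (fun a b i => ?_) (fun a n i => ?_)
    (fun b => (↑) ⁻¹' (ph δ '' Y b)) (fun b => ?_)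
    (by rw [← preimage_union, ← image_union]; exact Submonoid.closure_closure_coe_preimage)
    fun b x ⟨y, ⟨m, w, i, j⟩, k⟩ => ?_).elim fun m ⟨mL, mA⟩ => ?_
  rotate_right
  · have (b c : Bool) (m : N) (h : Alt (fun b => (↑) ⁻¹' (ph δ '' Y b)) b m c) :
        ∃ s, ph δ s = m ∧ Path Ed O (nd b) s (nd c) := by
      induction h with
      | one => exact ⟨[], ph_nil, .nil _⟩
      | cons a _ i =>
        obtain ⟨s, a, b⟩ := a
        obtain ⟨t, c, d⟩ := i
        exact ⟨s ++ t, by rw [ph_app, b, c]; rfl, a.1.trans d⟩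
    obtain ⟨s, a, b⟩ := this _ _ m mA
    obtain ⟨v, ⟨r, c, d⟩, l⟩ := al false
    exact S r v _ s c d b (((li m s a).1 mL).anti l)
  · obtain ⟨s, c, d⟩ := rep a
    obtain ⟨t, f, g⟩ := rep b
    obtain ⟨n, z, k, l⟩ := (li a s d).1 i
    obtain ⟨n', z', k', l'⟩ := (li b t g).1 j
    have n'' : s ++ t ≠ [] := fun h => n (List.append_eq_nil_iff.1 h).1
    obtain ⟨w, y⟩ := om_ex n''
    refine ⟨s ++ t, by rw [ph_app, d, g]; rfl, n'', w, y, fun h => ?_⟩
    rw [← hq, ← acc_app] at l l' h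
    have mm (x : List A) (h : x ∈ Y false ∪ Y true) : x.foldl μ (me p) = me p :=
      (yx h).elim (xm _ x) (xm _ x)
    exact (lo.p3 u s t z z' w (um' ▸ c.mem mm) (um' ▸ f.mem mm) n n' k k' y h).elim l l'
  · obtain ⟨s, c, d⟩ := rep a
    obtain ⟨t, -, g⟩ := rep b
    exact ⟨t ++ s, by rw [ph_app, d, g]; rfl,
      cj s t (c.mono yx) ((li _ _ (by rw [ph_app, d, g]; rfl)).1 i)⟩
  · obtain ⟨s, -, d⟩ := rep a
    rw [li a s d, li (a ^ n) (pw s n) (by rw [ph_pw, d]; rfl), Ls.pow i]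
  · obtain ⟨x, c, d⟩ := (st b).2.1
    obtain ⟨y, z, m, j, rfl⟩ := c.last d.1
    have : z ∈ Y b := ⟨m, y, j, d⟩
    refine ⟨⟨ph δ z, Submonoid.subset_closure ⟨z, ?_, rfl⟩⟩, z, this, rfl⟩
    cases b
    exacts [.inl this, .inr this]
  · have (w : List A) (h : Cl (Y b) w) : ∃ n ∈ Submonoid.closure
        (((↑) : N → _) ⁻¹' (ph δ '' Y b)), ph δ w = (n : N) := by
      induction h with
      | nil => exact ⟨1, one_mem _, ph_nil⟩
      | @cons x w a _ i =>
        obtain ⟨n, c, d⟩ := i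
        refine ⟨⟨ph δ x, Submonoid.subset_closure ⟨x, ?_, rfl⟩⟩ * n,
          mul_mem (Submonoid.subset_closure ⟨x, a, rfl⟩) c, by rw [ph_app, d]; rfl⟩
        cases b
        exacts [.inl a, .inr a]
    obtain ⟨n, c, d⟩ := this w (cy b w i y (.one m) j)
    exact ⟨n, c, w ++ y, by rw [ph_app, d, k]; rfl, j⟩

lemma Path.chain {c : Set (Set (U × U))} (h : IsChain (· ⊆ ·) c) {P : Set (U × U)} (m : P ∈ c)
    {x y : U} {u : List A} (a : Path Ed (⋃₀ c) x u y) : ∃ O ∈ c, P ⊆ O ∧ Path Ed O x u y := by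
  induction a with
  | nil => exact ⟨P, m, subset_rfl, .nil _⟩
  | ed e _ i => exact let ⟨O, a, b, d⟩ := i; ⟨O, a, b, .ed e d⟩
  | ep e _ i =>
    obtain ⟨O, a, b, d⟩ := i
    obtain ⟨T, f, g⟩ := e
    rcases h.total a f with k | k
    · exact ⟨T, f, b.trans k, .ep g (d.mono k)⟩
    · exact ⟨O, a, b, .ep (k g) d⟩

theorem total [Finite Q] (lo : Loc {w | Acc δ pr q₀ w} m₀ μ)
    (e : ∀ z a y, Ed z a y → me y = μ (me z) a) (rt : ∀ r, Rt r → me r = m₀)
    (o : ∀ z ∈ O, me z.1 = me z.2) (S : Sat Ed δ pr q₀ Rt O) :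
    ∃ P, O ⊆ P ∧ Sat Ed δ pr q₀ Rt P ∧ ∀ p p', me p = me p' → (p, p') ∈ P ∨ (p', p) ∈ P := by
  obtain ⟨P, a, b⟩ := zorn_subset_nonempty
    {P : Set (U × U) | (∀ z ∈ P, me z.1 = me z.2) ∧ Sat Ed δ pr q₀ Rt P} (fun c i j ⟨P, m⟩ =>
      ⟨⋃₀ c, ⟨fun z ⟨T, f, g⟩ => (i f).1 z g, fun r u z x a b d => by
        obtain ⟨O, f, -, b⟩ := b.chain j m
        obtain ⟨T, g, k, d⟩ := d.chain j f
        exact (i g).2 r u z x a (b.mono k) d⟩, fun _ => subset_sUnion_of_mem⟩) O ⟨o, S⟩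
  refine ⟨P, a, b.prop.2, fun p p' h => (merge lo e rt b.prop.1 b.prop.2 h).imp (fun k => ?_)
    fun k => ?_⟩ <;>
  · refine b.le_of_ge ⟨fun z i => i.elim (fun i => ?_) (b.prop.1 z), k⟩ (subset_insert _ _)
      (mem_insert _ _)
    simp [i, h]

end Pool.Agent.H.MP_369bda_lc
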