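import Pool.Agent.H.MP_369bda_lc.E

set_option autoImplicit false

namespace Pool.Agent.H.MP_369bda_lc

open Set Filter

variable {A Q M : Type} (δ : Q → A → Q) (pr : Q → ℕ) (μ : M → A → M)

abbrev Un (Q M : Type) := Q × M × (Q → Ordinal.{0})

def Ed (z : Un Q M) (a : A) (y : Un Q M) : Prop := y.1 = δ z.1 a ∧ y.2.1 = μ z.2.1 a ∧
  ∀ p, Odd (pr p) → (pr z.1 ≤ pr p → y.2.2 p ≤ z.2.2 p) ∧ (pr z.1 = pr p → y.2.2 p < z.2.2 p)

def O₀ : Set (Un Q M × Un Q M) := {z | z.2.1 = z.1.1 ∧ z.2.2.1 = z.1.2.1 ∧ z.2.2.2 ≤ z.1.2.2}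

variable {δ pr μ}

lemma base {z y : Un Q M} {x : List A} (h : Path (Ed δ pr μ) O₀ z x y) :
    x.foldl δ z.1 = y.1 ∧ ∀ p, Odd (pr p) → (∀ s ∈ vis δ z.1 x, pr s ≤ pr p) →
      y.2.2 p ≤ z.2.2 p ∧ (p ∈ vis δ z.1 x → y.2.2 p < z.2.2 p) := by
  induction h with
  | nil => simp [vis]
  | ed e _ i =>
    obtain ⟨a, -, b⟩ := e
    rw [List.foldl_cons, vis, ← a]
    refine ⟨i.1, fun p o k => ?_⟩
    obtain ⟨c, d⟩ := i.2 p o fun s m => k s (.inr m)
    have f := (b p o).1 (k _ (.inl rfl))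
    exact ⟨c.trans f, fun m => m.elim (fun m => c.trans_lt ((b p o).2 (by rw [m])))
      fun m => (d m).trans_le f⟩
  | ep e _ i =>
    obtain ⟨a, -, b⟩ := e
    simp only at a b
    rw [← a]
    exact ⟨i.1, fun p o k => ⟨(i.2 p o k).1.trans (b p), fun m => ((i.2 p o k).2 m).trans_le (b p)⟩⟩

lemma sat₀ [Finite Q] (q₀ : Q) (m₀ : M) :
    Sat (Ed δ pr μ) δ pr q₀ (fun z => z.1 = q₀ ∧ z.2.1 = m₀) O₀ := by
  rintro r u z x ⟨rfl, -⟩ a b ⟨n, w, c, d⟩
  rw [(base a).1, lasso δ pr (base b).1 n c] at d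
  obtain ⟨p, i, j⟩ := exists_max_image (vis δ z.1 x) pr (toFinite _) (by
    obtain ⟨a, x, rfl⟩ := List.exists_cons_of_ne_nil n
    exact insert_nonempty _ _)
  exact (Nat.even_or_odd (pr p)).elim (fun e => d ⟨p, i, e, j⟩)
    fun o => lt_irrefl _ (((base b).2 p o j).2 i)

lemma wq [Finite Q] [Finite M] (f : ℕ → Un Q M) : ∃ i j, i < j ∧ (f j, f i) ∈ O₀ := by
  obtain ⟨i, j, l, a, b⟩ := (Finite.wellQuasiOrdered (α := Q × M) (· = ·)).prod
    (wellQuasiOrdered_le (α := Q → Ordinal.{0})) fun n => (((f n).1, (f n).2.1), (f n).2.2)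
  exact ⟨i, j, l, (Prod.ext_iff.1 a).1, (Prod.ext_iff.1 a).2, b⟩

lemma least [Finite Q] [Finite M] {P : Set (Un Q M × Un Q M)} (h : O₀ ⊆ P)
    (t : ∀ p p' : Un Q M, p.2.1 = p'.2.1 → (p, p') ∈ P ∨ (p', p) ∈ P) {S : Set (Un Q M)} {m : M}
    (k : ∀ z ∈ S, z.2.1 = m) (n : S.Nonempty) : ∃ y ∈ S, ∀ z ∈ S, Path (Ed δ pr μ) P z [] y := by
  by_contra H
  push Not at H
  choose! g g1 g2 using H
  obtain ⟨z, hz⟩ := n
  have m (n : ℕ) : g^[n] z ∈ S := by
    induction n with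
    | zero => exact hz
    | succ n ih => rw [Function.iterate_succ_apply']; exact g1 _ ih
  have d (i j : ℕ) : Path (Ed δ pr μ) P (g^[i] z) [] (g^[i + j] z) := by
    induction j with
    | zero => exact .nil _
    | succ j ih =>
      rw [← add_assoc, Function.iterate_succ_apply']
      refine ih.trans (v := []) (.ep ((t _ _ ((k _ (m _)).trans (k _ (g1 _ (m _))).symm)).resolve_right
        fun a => g2 _ (m _) (.ep a (.nil _))) (.nil _))
  obtain ⟨i, j, l, a⟩ := wq fun n => g^[n] z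
  obtain ⟨j, rfl⟩ := Nat.exists_eq_add_of_lt l
  refine g2 _ (m i) ?_
  have := d (i + 1) j
  rw [Function.iterate_succ_apply', add_right_comm] at this
  exact this.trans (v := []) (.ep (h a) (.nil _))

lemma rej [Finite Q] {q₀ : Q} {w : Stream' A} (h : ¬ Acc δ pr q₀ w) : ∃ p, Odd (pr p) ∧
    ∃ᶠ n in atTop, (w.take n).foldl δ q₀ = p ∧ ∀ k ≥ n, pr ((w.take k).foldl δ q₀) ≤ pr p := by
  let F := {q | ∃ᶠ n in atTop, (w.take n).foldl δ q₀ = q}
  have e : ∀ᶠ n in atTop, (w.take n).foldl δ q₀ ∈ F :=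
    (eventually_all.2 fun q => show ∀ᶠ n in atTop, (w.take n).foldl δ q₀ = q → q ∈ F from by
      by_cases k : q ∈ F
      · exact .of_forall fun _ _ => k
      · exact (not_frequently.1 k).mono fun n a b => (a b).elim).mono fun n a => a _ rfl
  obtain ⟨p, i, j⟩ := exists_max_image F pr (toFinite _) ⟨_, e.exists.choose_spec⟩
  have e := e.mono fun n a => j _ a
  refine ⟨p, (Nat.even_or_odd _).resolve_left fun k => h ⟨_, k, Frequently.mono i fun n a => by
    rw [a], e⟩, Frequently.and_eventually i ?_⟩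
  exact eventually_forall_ge_atTop.2 e

variable {G : Game A}

def Pl (s : List G.E → G.V → G.E) (v : G.V) (e : Stream' G.E) : Prop :=
  G.src (e.get 0) = v ∧ (∀ n, G.tgt (e.get n) = G.src (e.get (n + 1))) ∧
    ∀ n, G.eve (G.src (e.get n)) → e.get n = s (e.take n) (G.src (e.get n))

lemma gen {s : List G.E → G.V → G.E} (l : ∀ h u, G.src (s h u) = u) (h : List G.E) (u : G.V) :
    ∃ f : Stream' G.E, G.src (f.get 0) = u ∧ (∀ n, G.tgt (f.get n) = G.src (f.get (n + 1))) ∧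
      ∀ n, f.get n = s (h ++ f.take n) (G.src (f.get n)) := by
  let g (n : ℕ) : List G.E × G.V :=
    (fun t => (t.1 ++ [s t.1 t.2], G.tgt (s t.1 t.2)))^[n] (h, u)
  have e (n : ℕ) : g (n + 1) = ((g n).1 ++ [s (g n).1 (g n).2], G.tgt (s (g n).1 (g n).2)) :=
    Function.iterate_succ_apply' _ _ _
  let f : Stream' G.E := fun n => s (g n).1 (g n).2
  have k (n : ℕ) : h ++ f.take n = (g n).1 := by
    induction n with
    | zero => exact List.append_nil h
    | succ n ih => rw [Stream'.take_succ', ← List.append_assoc, ih, e]; rfl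
  refine ⟨f, l _ _, fun n => ?_, fun n => ?_⟩
  · exact ((l _ _).trans (congrArg Prod.snd (e n))).symm
  · rw [k]; exact congrArg _ (l _ _).symm

lemma take_congr {T : Type} {e f : Stream' T} {n : ℕ} (h : ∀ k < n, e.get k = f.get k) :
    e.take n = f.take n := by
  induction n with
  | zero => rfl
  | succ n ih => rw [Stream'.take_succ', Stream'.take_succ', ih fun k a => h k (by omega), h n (by omega)]

lemma extn {s : List G.E → G.V → G.E} (l : ∀ h u, G.src (s h u) = u) {v : G.V} {e : Stream' G.E}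
    (h : Pl s v e) (n : ℕ) (a : G.E) (i : G.src a = G.src (e.get n))
    (j : G.eve (G.src a) → a = e.get n) :
    ∃ f, Pl s v f ∧ f.get n = a ∧ ∀ k < n, f.get k = e.get k := by
  by_cases ev : G.eve (G.src a)
  · exact ⟨e, h, (j ev).symm, fun _ _ => rfl⟩
  obtain ⟨f, f1, f2, f3⟩ := gen l (e.take n ++ [a]) (G.tgt a)
  have L : (e.take n ++ [a]).length = n + 1 := by simp
  have b1 (k : ℕ) (c : k < n) : ((e.take n ++ [a]) ++ₛ f).get k = e.get k := by
    rw [Stream'.get_append_left _ _ _ (by omega), List.getElem_append_left (by simpa using c),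
      Stream'.take_get]
  have b2 : ((e.take n ++ [a]) ++ₛ f).get n = a := by
    rw [Stream'.get_append_left _ _ _ (by omega)]; simp
  have b3 (k : ℕ) : ((e.take n ++ [a]) ++ₛ f).get (n + 1 + k) = f.get k := by
    rw [← L, Stream'.get_append_right]
  have b4 (k : ℕ) (c : k ≤ n) : G.src (((e.take n ++ [a]) ++ₛ f).get k) = G.src (e.get k) := by
    rcases c.lt_or_eq with c | rfl
    · rw [b1 k c]
    · rw [b2, i]
  refine ⟨_, ⟨(b4 0 n.zero_le).trans h.1, fun k => ?_, fun k c => ?_⟩, b2, b1⟩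
  · rcases lt_trichotomy k n with c | rfl | c
    · rw [b1 k c, b4 _ c, h.2.1]
    · rw [b2, b3 0, f1]
    · obtain ⟨k, rfl⟩ := Nat.exists_eq_add_of_le (Nat.succ_le_of_lt c)
      exact (b3 k).symm ▸ (b3 (k + 1)).symm ▸ f2 k
  · rcases lt_trichotomy k n with d | rfl | d
    · rw [take_congr fun i m => b1 i (m.trans d), b1 k d] at *
      exact h.2.2 k c
    · rw [b2] at c; exact (ev c).elim
    · obtain ⟨k, rfl⟩ := Nat.exists_eq_add_of_le (Nat.succ_le_of_lt d)
      have := Stream'.append_take k (e.take n ++ [a]) f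
      rw [L] at this
      rw [Nat.succ_eq_add_one, b3, ← this]
      exact f3 k

variable (δ) in
def rn {T : Type} (δ : T → A → T) (q : T) (e : Stream' G.E) (n : ℕ) : T :=
  ((e.map G.col).take n).foldl δ q

lemma rn_congr {T : Type} (δ : T → A → T) (q : T) {e f : Stream' G.E} {n : ℕ}
    (h : ∀ k < n, e.get k = f.get k) : rn δ q e n = rn δ q f n := by
  rw [rn, rn, ← Stream'.map_take, ← Stream'.map_take, take_congr h]

lemma rn_succ {T : Type} (δ : T → A → T) (q : T) (e : Stream' G.E) (n : ℕ) :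
    rn δ q e (n + 1) = δ (rn δ q e n) (G.col (e.get n)) := by
  rw [rn, Stream'.take_succ', List.foldl_append]; rfl

variable (δ pr) in
def Rl (q₀ : Q) (s : List G.E → G.V → G.E) (v : G.V) (p : Q) (y t : Stream' G.E × ℕ) : Prop :=
  Pl s v y.1 ∧ t.2 < y.2 ∧ (∀ k < t.2, y.1.get k = t.1.get k) ∧
    (∀ k, t.2 ≤ k → k < y.2 → pr (rn δ q₀ y.1 k) ≤ pr p) ∧
    ∃ k, t.2 ≤ k ∧ k < y.2 ∧ pr (rn δ q₀ y.1 k) = pr p

lemma wf {q₀ : Q} {s : List G.E → G.V → G.E} {v : G.V} (h : G.Wins {w | Acc δ pr q₀ w} s v)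
    {p : Q} (o : Odd (pr p)) : WellFounded (Rl δ pr q₀ s v p) := by
  refine wellFounded_iff_isEmpty_descending_chain.2 ⟨fun ⟨f, a⟩ => ?_⟩
  have sm : StrictMono fun n => (f n).2 := strictMono_nat_of_lt_succ fun n => (a n).2.1
  have ag (i j : ℕ) (l : i ≤ j) (k : ℕ) (c : k < (f i).2) : (f j).1.get k = (f i).1.get k := by
    induction j, l using Nat.le_induction with
    | base => rfl
    | succ j l ih => rw [(a j).2.2.1 k (c.trans_le (sm.monotone l)), ih]
  let e : Stream' G.E := fun k => (f (k + 1)).1.get k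
  have ee (j k : ℕ) (c : k < (f j).2) : e.get k = (f j).1.get k := by
    rcases le_total j (k + 1) with l | l
    · exact ag _ _ l k c
    · exact (ag _ _ l k (sm.le_apply (x := k + 1))).symm
  have e2 (n k : ℕ) (c : k ≤ n + 1) : e.get k = (f (n + 1 + 1)).1.get k :=
    ee _ k (lt_of_lt_of_le (by omega) (sm.le_apply (x := n + 1 + 1)))
  have er (j k : ℕ) (c : k ≤ (f j).2) : rn δ q₀ e k = rn δ q₀ (f j).1 k :=
    rn_congr δ q₀ fun i m => ee j i (m.trans_le c)
  obtain ⟨d, i, j, k⟩ := h.2 e (by rw [e2 0 0 (by omega)]; exact (a _).1.1)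
    (fun n => by rw [e2 n n (by omega), e2 n _ le_rfl]; exact (a _).1.2.1 n) fun n => by
      rw [e2 n n (by omega), take_congr fun i m => e2 n i (by omega)]; exact (a _).1.2.2 n
  have l1 : ∀ᶠ n in atTop, pr (rn δ q₀ e n) ≤ pr p := eventually_atTop.2 ⟨(f 0).2, fun n l => by
    have (j : ℕ) (c : n < (f j).2) : pr (rn δ q₀ e n) ≤ pr p := by
      induction j with
      | zero => omega
      | succ j ih =>
        rcases lt_or_ge n (f j).2 with b | b
        · exact ih b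
        · rw [er _ n c.le]; exact (a j).2.2.2.1 n b c
    exact this (n + 1) (sm.le_apply (x := n + 1))⟩
  have l2 : ∃ᶠ n in atTop, pr (rn δ q₀ e n) = pr p := frequently_atTop.2 fun n => by
    obtain ⟨k, b, c, d⟩ := (a n).2.2.2.2
    exact ⟨k, (sm.le_apply (x := n)).trans b, by rw [er _ k c.le, d]⟩
  obtain ⟨n, b, c⟩ := (j.and_eventually l1).exists
  obtain ⟨m, b', c'⟩ := (l2.and_eventually k).exists
  have : d = pr p := le_antisymm (b ▸ c) (b' ▸ c')
  exact Nat.not_even_iff_odd.2 o (this ▸ i)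

end Pool.Agent.H.MP_369bda_lc
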