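import Pool.Agent.H.MP_369bda_lc.F

set_option autoImplicit false

namespace Pool.Agent.H.MP_369bda_lc

open Set Filter

open Classical in
noncomputable def rk {T : Type} (r : T → T → Prop) (a : T) : Ordinal.{0} :=
  if h : WellFounded r then @IsWellFounded.rank _ r ⟨h⟩ a else 0

lemma rk_le {T : Type} {r : T → T → Prop} {a b : T} (h : ∀ y, r y a → r y b) : rk r a ≤ rk r b := by
  unfold rk
  split_ifs with w
  · haveI : IsWellFounded T r := ⟨w⟩
    rw [IsWellFounded.rank_eq r a]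
    exact ciSup_le' fun y => Order.succ_le_of_lt (IsWellFounded.rank_lt_of_rel (h _ y.2))
  · exact le_rfl

lemma rk_lt {T : Type} {r : T → T → Prop} (w : WellFounded r) {a b : T} (h : r a b) :
    rk r a < rk r b := by
  unfold rk
  rw [dif_pos w, dif_pos w]
  exact @IsWellFounded.rank_lt_of_rel _ _ _ r ⟨w⟩ h

variable {A Q M : Type} (δ : Q → A → Q) (pr : Q → ℕ) (μ : M → A → M) (q₀ : Q) (m₀ : M)
  {G : Game A}

noncomputable def nd (s : List G.E → G.V → G.E) (v : G.V) (e : Stream' G.E) (n : ℕ) : Un Q M :=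
  (rn δ q₀ e n, rn μ m₀ e n, fun p => rk (Rl δ pr q₀ s v p) (e, n))

variable {δ pr μ q₀ m₀}

lemma step {s : List G.E → G.V → G.E} {v : G.V} (h : G.Wins {w | Acc δ pr q₀ w} s v)
    {e f : Stream' G.E} {n : ℕ} (a : Pl s v f) (b : ∀ k < n, f.get k = e.get k) :
    Ed δ pr μ (nd δ pr μ q₀ m₀ s v e n) (G.col (f.get n)) (nd δ pr μ q₀ m₀ s v f (n + 1)) := by
  refine ⟨?_, ?_, fun p o => ⟨fun l => rk_le ?_, fun l => rk_lt (wf h o) ?_⟩⟩
  · simp only [nd]; rw [rn_succ, rn_congr δ q₀ b]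
  · simp only [nd]; rw [rn_succ, rn_congr μ m₀ b]
  · rintro y ⟨i, j, k, c, m, d⟩
    simp only [nd] at *
    have g (t : ℕ) (x : t < n) : y.1.get t = e.get t := (k t (by omega)).trans (b t x)
    refine ⟨i, by simp only; omega, g, fun t x z => ?_, m, by simp only; omega, d.2⟩
    rcases x.lt_or_eq with x | rfl
    · exact c t x z
    · rwa [rn_congr δ q₀ g]
  · simp only [nd] at l
    rw [← rn_congr δ q₀ b] at l
    refine ⟨a, n.lt_succ_self, b, fun t x z => ?_, n, le_rfl, n.lt_succ_self, l⟩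
    obtain rfl : n = t := le_antisymm x (Nat.le_of_lt_succ z)
    exact l.le

lemma fin [Finite Q] [Finite M] {P : Set (Un Q M × Un Q M)} (o : O₀ ⊆ P) {Rt : Un Q M → Prop}
    (S : Sat (Ed δ pr μ) δ pr q₀ Rt P) {w : Stream' A} {r : Un Q M} (rt : Rt r) {c : ℕ → Un Q M}
    (a : Path (Ed δ pr μ) P r [] (c 0))
    (b : ∀ n, Path (Ed δ pr μ) P (c n) [w.get n] (c (n + 1))) : Acc δ pr q₀ w := by
  by_contra H
  have d (i j : ℕ) : Path (Ed δ pr μ) P (c i) ((w.drop i).take j) (c (i + j)) := by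
    induction j with
    | zero => exact .nil _
    | succ j ih =>
      rw [Stream'.take_succ', Stream'.get_drop]
      exact ih.trans (b _)
  obtain ⟨p, i, j⟩ := rej H
  obtain ⟨φ, m, k⟩ := extraction_of_frequently_atTop j
  obtain ⟨s, t, l, e⟩ := wq (c ∘ φ)
  obtain ⟨n, x⟩ := Nat.exists_eq_add_of_lt (m l)
  rw [add_assoc] at x
  have g (n : ℕ) : ((w.drop (φ s)).take n).foldl δ p = (w.take (φ s + n)).foldl δ q₀ := by
    rw [Stream'.take_add, List.foldl_append, (k s).1]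
  have ne : (w.drop (φ s)).take (n + 1) ≠ [] := by simp [Stream'.take_succ]
  obtain ⟨z, y⟩ := om_ex ne
  refine S r _ (c (φ s)) ((w.drop (φ s)).take (n + 1)) rt
    (a.trans (by simpa using d 0 (φ s))) ?_ ⟨ne, z, y, ?_⟩
  · have := (d (φ s) (n + 1)).trans (v := []) (z := c (φ s))
      (by rw [← x]; exact .ep (o e) (.nil _))
    rwa [List.append_nil] at this
  · rw [List.nil_append, (k s).1, lasso δ pr (by rw [g, ← x, (k t).1]) ne y]
    rintro ⟨q, u, v, f⟩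
    obtain ⟨n', -, rfl⟩ := (mem_vis δ).1 u
    have := f p ((mem_vis δ).2 ⟨0, n.succ_pos, rfl⟩)
    rw [g] at this v
    rw [le_antisymm ((k s).2 _ (Nat.le_add_right _ _)) this] at v
    exact Nat.not_even_iff_odd.2 i v

theorem lift [Finite M] {W : Set (Stream' A)} (h : OReg W) (g : (GG A).Suf W m₀ μ) (G : Game A) :
    G.Suf W m₀ μ := by
  obtain ⟨Q, _, q₀, δ, pr, h⟩ := h
  obtain rfl : W = {w | Acc δ pr q₀ w} := Set.ext h
  obtain ⟨P, o, S, t⟩ := total (me := fun z : Un Q M => z.2.1) (Ed := Ed δ pr μ) (loc g)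
    (fun _ _ _ e => e.2.1) (fun _ e => e.2) (fun _ e => e.2.1.symm) (sat₀ q₀ m₀)
  choose ou ho using G.out
  have (v : G.V) : ∃ s, (∃ s, G.Wins {w | Acc δ pr q₀ w} s v) → G.Wins {w | Acc δ pr q₀ w} s v := by
    by_cases a : ∃ s, G.Wins {w | Acc δ pr q₀ w} s v
    · exact ⟨a.choose, fun _ => a.choose_spec⟩
    · exact ⟨fun _ => ou, fun b => (a b).elim⟩
  choose s hs using this
  let Z (u : G.V) (m : M) (z : Un Q M) (a : G.E) : Prop := ∃ v e n,
    G.Wins {w | Acc δ pr q₀ w} (s v) v ∧ Pl (s v) v e ∧ G.src a = u ∧ z.2.1 = m ∧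
      z = nd δ pr μ q₀ m₀ (s v) v e n ∧ a = e.get n
  have (u : G.V) (m : M) : ∃ a y, G.src a = u ∧ ((∃ z b, Z u m z b) → Z u m y a ∧
      ∀ z b, Z u m z b → Path (Ed δ pr μ) P z [] y) := by
    by_cases a : ∃ z b, Z u m z b
    · obtain ⟨y, ⟨b, i⟩, j⟩ := least (δ := δ) (pr := pr) (μ := μ) o t (S := {z | ∃ b, Z u m z b})
        (m := m) (fun z ⟨_, _, _, _, _, _, _, i, _⟩ => i) a
      refine ⟨b, y, ?_, fun _ => ⟨i, fun z b c => j z ⟨b, c⟩⟩⟩
      obtain ⟨_, _, _, _, _, i, _⟩ := i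
      exact i
    · exact ⟨ou u, (q₀, m, fun _ => 0), ho u, fun b => (a b).elim⟩
  choose σ c hσ hc using this
  refine ⟨σ, fun v wv => ⟨fun _ _ => hσ _ _, fun f a b d => ?_⟩⟩
  have st (n : ℕ) (i : ∃ z x, Z (G.src (f.get n)) (rn μ m₀ f n) z x) :
      ∃ z x, Z (G.src (f.get (n + 1))) (rn μ m₀ f (n + 1)) z x ∧
        Ed δ pr μ (c (G.src (f.get n)) (rn μ m₀ f n)) (G.col (f.get n)) z := by
    obtain ⟨u, e, j, w, p, x, y, z, l⟩ := (hc _ _ i).1
    obtain ⟨g, g1, g2, g3⟩ := extn w.1 p j (f.get n) (by rw [← l, x]) fun ev => by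
      rw [← l, rn, ← Stream'.map_take]
      exact d n ev
    have := step (μ := μ) (m₀ := m₀) w g1 g3
    rw [g2, ← z] at this
    refine ⟨_, _, ⟨u, g, j + 1, w, g1, ?_, ?_, rfl, rfl⟩, this⟩
    · rw [← g1.2.1, g2, b]
    · rw [this.2.1, y, rn_succ]
  obtain ⟨e, e1, e2, e3⟩ := gen (hs v wv).1 [] v
  have z0 : Z (G.src (f.get 0)) (rn μ m₀ f 0) (nd δ pr μ q₀ m₀ (s v) v e 0) (e.get 0) :=
    ⟨v, e, 0, hs v wv, ⟨e1, e2, fun n _ => e3 n⟩, e1.trans a.symm, rfl, rfl, rfl⟩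
  have ne (n : ℕ) : ∃ z x, Z (G.src (f.get n)) (rn μ m₀ f n) z x := by
    induction n with
    | zero => exact ⟨_, _, z0⟩
    | succ n ih => exact let ⟨z, x, i, _⟩ := st n ih; ⟨z, x, i⟩
  refine fin o S (c := fun n => c (G.src (f.get n)) (rn μ m₀ f n)) ⟨rfl, rfl⟩
    ((hc _ _ (ne 0)).2 _ _ z0) fun n => ?_
  obtain ⟨z, x, i, j⟩ := st n (ne n)
  exact .ed j ((hc _ _ (ne _)).2 _ _ i)

end Pool.Agent.H.MP_369bda_lc
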